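import Pool.Agent.PSV.StmtsS
import Pool.Agent.Helper29_MTN.FSC

/-! Squad PSV, row FSQ: formal relations persist at all complex points, explicit radius.
Edit of `Helper29_MTN/FSC.lean`. -/

set_option autoImplicit false

namespace Pool.Agent.PSV.H85

open Matrix Polynomial Pool.Agent.MT100 Pool.Agent.MT100G Pool.Agent.MT100A Pool.Agent.MT100D
  Pool.Agent.Helper78_MT Pool.Agent.MTL Pool.Agent.MTN Pool.Agent.MTN.H29

theorem sep_bound (n B : ℕ) (hB : 2 ≤ B) : 3 * (n + 1) * B + 3 ≤ B ^ (n + 5) := by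
  have h1 : n + 1 ≤ 2 ^ n := Nat.lt_two_pow_self
  have h2 : 2 ^ n ≤ B ^ n := Nat.pow_le_pow_left hB n
  have h3 : n + 1 ≤ B ^ n := h1.trans h2
  have h4 : 1 ≤ B ^ n := Nat.one_le_pow _ _ (by omega)
  have h5 : 2 * 2 ≤ B * B := Nat.mul_le_mul hB hB
  have h6 : 3 * (n + 1) * B + 3 ≤ 6 * (B ^ n * B) := by
    have h7 : (n + 1) * B ≤ B ^ n * B := Nat.mul_le_mul_right _ h3
    have h8 : 1 * 2 ≤ B ^ n * B := Nat.mul_le_mul h4 hB
    calc 3 * (n + 1) * B + 3 = 3 * ((n + 1) * B) + 3 := by ring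
      _ ≤ 3 * (B ^ n * B) + 3 * (B ^ n * B) := by omega
      _ = 6 * (B ^ n * B) := by ring
  calc 3 * (n + 1) * B + 3 ≤ 6 * (B ^ n * B) := h6
    _ ≤ (B * B) * (B * B) * (B ^ n * B) := by
        refine Nat.mul_le_mul_right _ ?_
        calc 6 ≤ 4 * 4 := by norm_num
          _ ≤ (B * B) * (B * B) := Nat.mul_le_mul (by omega) (by omega)
    _ = B ^ (n + 5) := by ring

/-- FSQ -/
theorem fsq (h1 : FseStmt) (h2 : VgqStmt) (h3 : TrbStmt) (ace : AceStmt) (szm : SzmStmt) :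
    FsqStmt := by
  intro n
  obtain ⟨av, hav⟩ := h2 n
  obtain ⟨at', hat⟩ := h3 n
  obtain ⟨c, hc⟩ : ∃ c : ℕ, c = max av (at' + 1) := ⟨_, rfl⟩
  refine ⟨n + 5, c + 1, fun d _ _ F B B1 hF hBB ι _ _ κ hκ hκ1 k p hp w hw g hg => ?_⟩
  have hB2 : 2 ≤ B := hF.two
  have hB1 : 2 ≤ B1 := hB2.trans hBB
  have hF1 : FSiz n B1 F := szm.1 d n n B B1 F.H F.K F.N F.δ F.q F.B le_rfl hBB hF
  have hBr : (2 : ℝ) ≤ (B1 : ℝ) := by exact_mod_cast hB1
  obtain ⟨R0, hR0⟩ := h1 d n B F hF ι κ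
    ⟨fun i => (sep_bound n B hB2).trans (hκ.1 i), fun i j hij => by
      rcases hκ.2 i j hij with h | h
      · exact Or.inl ((sep_bound n B hB2).trans h)
      · exact Or.inr ((sep_bound n B hB2).trans h)⟩ k
  -- the radius
  obtain ⟨R, hR⟩ : ∃ R : ℝ, R = (B1 : ℝ) ^ c := ⟨_, rfl⟩
  have hRpos : 0 < R := by rw [hR]; positivity
  have hRw : R < ‖w‖ := by
    refine lt_of_lt_of_le ?_ hw
    rw [hR]
    exact pow_lt_pow_right₀ (by linarith) (Nat.lt_succ_self c)
  have hR1 : ∀ (i : ι) (w : ℂ), R < ‖w‖ → F.Y (w - κ i) * F.R w = tvC F (κ i) w := by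
    intro i w hw
    refine (hav d F B1 (κ i) hF1 (hκ1 i) w (le_trans ?_ hw.le)).1
    rw [hR]
    exact pow_le_pow_right₀ (by linarith) (by rw [hc]; exact le_max_left _ _)
  have hrad : ∀ (i : ι) (a b : d) (x : ℂ), ‖x‖ < R⁻¹ →
      HasDerivAt (evC (F.T (κ i) a b)) (evC (dv (F.T (κ i) a b)) x) x := by
    intro i a b x hx
    refine (ace (B1 ^ at') (F.T (κ i) a b) (Nat.one_le_pow _ _ (by omega))
      (hat d F.H F.K F.N F.δ F.q F.B B1 (κ i) hF1 (hκ1 i) a b).1 x (lt_of_lt_of_le hx ?_)).2.2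
    rw [one_div]
    refine inv_anti₀ (by positivity) ?_
    rw [hR]
    push_cast
    calc 2 * (B1 : ℝ) ^ at' ≤ (B1 : ℝ) * (B1 : ℝ) ^ at' :=
          mul_le_mul_of_nonneg_right hBr (by positivity)
      _ = (B1 : ℝ) ^ (at' + 1) := by ring
      _ ≤ (B1 : ℝ) ^ c := pow_le_pow_right₀ (by linarith) (by rw [hc]; exact le_max_right _ _)
  -- the function
  obtain ⟨Ψ, hΨ⟩ : ∃ Ψ : ℂ → ℂ, Ψ = fun ζ => ∑ β, ∑ α,
      (p β α).eval₂ (algebraMap ℚ ℂ) (Complex.exp (-ζ)) *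
        ∏ s : ι × Fin k, (((F.T (κ s.1)).map (fun f => evC f (Complex.exp (-ζ)))) *
          ((eN F.N (-ζ) * ed F.δ (-ζ)) * (g s.1 * (ed F.δ ζ * eN F.N ζ)))) (β s) (α s) :=
    ⟨_, rfl⟩
  -- its values
  have hval : ∀ w : ℂ, R < ‖w‖ → Ψ (Complex.log w) = ∑ β, ∑ α,
      (p β α).eval₂ (algebraMap ℚ ℂ) (w⁻¹) *
        ∏ s : ι × Fin k, (F.Y (w - κ s.1) * g s.1 * F.R w) (β s) (α s) := by
    intro w hw
    have hw0 : w ≠ 0 := norm_pos_iff.1 (hRpos.trans hw)
    have he : Complex.exp (-Complex.log w) = w⁻¹ := by rw [Complex.exp_neg, Complex.exp_log hw0]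
    rw [hΨ]
    simp only [he]
    refine Finset.sum_congr rfl fun β _ => Finset.sum_congr rfl fun α _ => ?_
    congr 1
    refine Finset.prod_congr rfl fun s _ => ?_
    have hv : (F.T (κ s.1)).map (fun f => evC f w⁻¹) = F.Y (w - κ s.1) * F.R w :=
      (hR1 s.1 w hw).symm
    have hρ : F.R w = ed F.δ (Complex.log w) * eN F.N (Complex.log w) := rfl
    rw [hv, ← hρ]
    have hi : F.R w * (eN F.N (-Complex.log w) * ed F.δ (-Complex.log w)) = 1 := by
      rw [hρ]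
      exact rho_inv F _
    have hc : F.Y (w - κ s.1) * F.R w *
        (eN F.N (-Complex.log w) * ed F.δ (-Complex.log w) * (g s.1 * F.R w)) =
        F.Y (w - κ s.1) * g s.1 * F.R w := by
      calc F.Y (w - κ s.1) * F.R w *
            (eN F.N (-Complex.log w) * ed F.δ (-Complex.log w) * (g s.1 * F.R w))
          = F.Y (w - κ s.1) * (F.R w * (eN F.N (-Complex.log w) * ed F.δ (-Complex.log w))) *
            (g s.1 * F.R w) := by simp only [Matrix.mul_assoc]
        _ = F.Y (w - κ s.1) * g s.1 * F.R w := by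
          rw [hi, Matrix.mul_one, Matrix.mul_assoc]
    rw [hc]
  -- holomorphic
  have hdiff : ∀ ζ : ℂ, Real.log R < ζ.re → DifferentiableAt ℂ Ψ ζ := by
    intro z hz
    have hneg : DifferentiableAt ℂ (fun ζ : ℂ => -ζ) z := differentiableAt_id.neg
    have hexp : DifferentiableAt ℂ (fun ζ : ℂ => Complex.exp (-ζ)) z := hneg.cexp
    have hT : ∀ s : ι × Fin k,
        DM (fun ζ => (F.T (κ s.1)).map (fun f => evC f (Complex.exp (-ζ)))) z := by
      intro s a b
      have hb : ‖Complex.exp (-z)‖ < R⁻¹ := by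
        rw [Complex.norm_exp, Complex.neg_re, Real.exp_neg]
        have h5 : R < Real.exp z.re := (Real.log_lt_iff_lt_exp hRpos).1 hz
        exact (inv_lt_inv₀ (Real.exp_pos _) hRpos).2 h5
      exact DifferentiableAt.comp z (hrad s.1 a b _ hb).differentiableAt hexp
    have hρ : DM (fun ζ => ed F.δ ζ * eN F.N ζ) z :=
      dm_mul (dm_ed F.δ differentiableAt_id) (dm_eN F.N F.sys.nil differentiableAt_id)
    have hρ' : DM (fun ζ => eN F.N (-ζ) * ed F.δ (-ζ)) z :=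
      dm_mul (dm_eN F.N F.sys.nil hneg) (dm_ed F.δ hneg)
    rw [hΨ]
    refine DifferentiableAt.fun_sum fun β _ => DifferentiableAt.fun_sum fun α _ => ?_
    refine DifferentiableAt.mul ?_ ?_
    · have h6 : (fun ζ : ℂ => (p β α).eval₂ (algebraMap ℚ ℂ) (Complex.exp (-ζ))) =
          fun ζ : ℂ => ((p β α).map (algebraMap ℚ ℂ)).eval (Complex.exp (-ζ)) := by
        funext ζ
        rw [eval_map]
      rw [h6]
      exact DifferentiableAt.comp z ((p β α).map (algebraMap ℚ ℂ)).differentiable.differentiableAt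
        hexp
    · refine DifferentiableAt.fun_finsetProd fun s _ => ?_
      exact dm_mul (hT s) (dm_mul hρ' (dm_mul (dm_const (g s.1) z) hρ)) (β s) (α s)
  -- real points
  obtain ⟨R2, hR2⟩ : ∃ R2 : ℝ, R2 = max R R0 := ⟨_, rfl⟩
  have hR2' : R ≤ R2 := by rw [hR2]; exact le_max_left _ _
  have hR2'' : R0 ≤ R2 := by rw [hR2]; exact le_max_right _ _
  have hR2pos : 0 < R2 := hRpos.trans_le hR2'
  have hreal : ∀ t : ℝ, Real.log R2 < t → Ψ (t : ℂ) = 0 := by
    intro t ht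
    have h5 : R2 < Real.exp t := (Real.log_lt_iff_lt_exp hR2pos).1 ht
    have h6 : Complex.log ((Real.exp t : ℝ) : ℂ) = t := by
      rw [← Complex.ofReal_log (Real.exp_pos t).le, Real.log_exp]
    have h7 : R < ‖((Real.exp t : ℝ) : ℂ)‖ := by
      rw [Complex.norm_real, Real.norm_eq_abs, abs_of_pos (Real.exp_pos t)]
      exact lt_of_le_of_lt hR2' h5
    rw [← h6, hval _ h7]
    exact hR0 p hp (Real.exp t) (lt_of_le_of_lt hR2'' h5) g hg
  -- the identity theorem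
  have hlog : Real.log R ≤ Real.log R2 := Real.log_le_log hRpos hR2'
  have hopen : IsOpen {ζ : ℂ | Real.log R < ζ.re} := isOpen_lt continuous_const Complex.continuous_re
  have hconn : IsPreconnected {ζ : ℂ | Real.log R < ζ.re} :=
    (convex_halfSpace_re_gt (Real.log R)).isPreconnected
  have hanal : AnalyticOnNhd ℂ Ψ {ζ : ℂ | Real.log R < ζ.re} :=
    DifferentiableOn.analyticOnNhd (fun ζ hζ => (hdiff ζ hζ).differentiableWithinAt) hopen
  have hzero := hanal.eqOn_zero_of_preconnected_of_frequently_eq_zero hconn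
    (z₀ := ((Real.log R2 + 1 : ℝ) : ℂ)) (by
      change Real.log R < (((Real.log R2 + 1 : ℝ) : ℂ)).re
      rw [Complex.ofReal_re]
      linarith) (real_pts (Real.log R2) Ψ hreal _ (by linarith))
  have hlw : Real.log R < (Complex.log w).re := by
    rw [Complex.log_re]
    exact Real.log_lt_log hRpos hRw
  have hfin : Ψ (Complex.log w) = 0 := hzero hlw
  rw [hval w hRw] at hfin
  exact hfin

end Pool.Agent.PSV.H85
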